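import Pool.Agent.Helper418_Sofic.BComb

/-!
# Commuting sofic actions whose combined action is not sofic

The definition of a sofic action is `Helper418.SoficAction` (with `Helper418.hamD` and
`Helper418.IsOrbitApprox`), the one of the problem file.
-/

namespace Pool.Agent.Results.MP_1f9cc6_al.NonSoficCombined

/-- There are a countable set `X`, a countable group `G` and two commuting sofic actions of `G` on
`X` such that the combined action of `G × G` on `X` is not sofic. Moreover `G` is finitely
generated and residually finite and both actions are free. -/
theorem result : ∃ (G X : Type) (_ : Group G) (_ : Countable G) (_ : Countable X)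
    (α β : G →* Equiv.Perm X) (hc : ∀ g h, Commute (α g) (β h)),
    Group.FG G ∧
    (∀ g : G, g ≠ 1 → ∃ (Q : Type) (_ : Group Q) (_ : Finite Q) (f : G →* Q), f g ≠ 1) ∧
    (∀ g x, α g x = x → g = 1) ∧ (∀ g x, β g x = x → g = 1) ∧
    Helper418.SoficAction α ∧ Helper418.SoficAction β ∧
    ¬ Helper418.SoficAction (α.noncommCoprod β hc) :=
  ⟨Helper418.GB, Helper418.XB, inferInstance, inferInstance, inferInstance,
    Helper418.actL, Helper418.actR, Helper418.act_commute, Helper418.fg_GB, Helper418.GB_RF,
    Helper418.actL_free, Helper418.actR_free, Helper418.actL_sofic, Helper418.actR_sofic,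
    Helper418.not_sofic_comb⟩

end Pool.Agent.Results.MP_1f9cc6_al.NonSoficCombined
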